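import Pool.Agent.SA.MainN

/-! MP_838612_al: the laws of a group with an abelian normal subgroup of finite index such that
all Sylow subgroups of the quotient are abelian are finitely based. -/

namespace Pool.Agent.Results.MP_838612_al.AbelianSylow

theorem result (G : Type) [Group G] (A : Subgroup G) [A.Normal] [A.FiniteIndex]
    (hA : ∀ a ∈ A, ∀ b ∈ A, a * b = b * a)
    (hSyl : ∀ (p : ℕ) [Fact p.Prime] (P : Sylow p (G ⧸ A)), ∀ x ∈ P, ∀ y ∈ P, x * y = y * x) :
    ∃ S : Finset (FreeGroup ℕ), (∀ w ∈ S, ∀ f : ℕ → G, FreeGroup.lift f w = 1) ∧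
      ∀ (H : Type) [Group H], (∀ w ∈ S, ∀ f : ℕ → H, FreeGroup.lift f w = 1) →
        ∀ w : FreeGroup ℕ, (∀ f : ℕ → G, FreeGroup.lift f w = 1) →
          ∀ f : ℕ → H, FreeGroup.lift f w = 1 :=
  SA.main_n G A hA hSyl

end Pool.Agent.Results.MP_838612_al.AbelianSylow
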