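import Pool.Agent.NFI.InsB

/-! MP_838612_al, Q1: the laws of an abelian-by-finite group need not be finitely based.  The
counterexample is a wreath product `ℤ ≀ K` with `K` a finite group of order `1277952`; its laws in
any bounded number of letters hold in a finite group in which some other law of it fails. -/

set_option autoImplicit false

namespace Pool.Agent.Results.MP_838612_al.WreathCounterexample

/-- `IdRel(G)`: the words `w` (in the letters `x_0, x_1, …`) with `w(g_0, g_1, …) = 1` for all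
elements `g_0, g_1, …` of `G`. -/
def IdRel (G : Type) [Group G] : Subgroup (FreeGroup ℕ) where
  carrier := {w | ∀ g : ℕ → G, FreeGroup.lift g w = 1}
  one_mem' := fun g => map_one _
  mul_mem' := fun ha hb g => by rw [map_mul, ha g, hb g, mul_one]
  inv_mem' := fun ha g => by rw [map_inv, ha g, inv_one]

/-- `G` has an abelian normal subgroup of finite index. -/
def AbelianByFinite (G : Type) [Group G] : Prop :=
  ∃ A : Subgroup G, A.Normal ∧ A.FiniteIndex ∧ ∀ a ∈ A, ∀ b ∈ A, a * b = b * a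

/-- The laws of `G` are finitely based: for some finite set `W` of words, a group `X` lies in the
variety generated by `G` if and only if every word of `W` is a law of `X`. -/
def FinitelyBased (G : Type) [Group G] : Prop :=
  ∃ W : Finset (FreeGroup ℕ), ∀ (X : Type) [Group X],
    IdRel G ≤ IdRel X ↔ ∀ w ∈ W, w ∈ IdRel X

/-- The smallest fully invariant subgroup containing `W`. -/
def fullyInvariantClosure (W : Set (FreeGroup ℕ)) : Subgroup (FreeGroup ℕ) :=
  sInf {V | W ⊆ V ∧ ∀ φ : FreeGroup ℕ →* FreeGroup ℕ, ∀ v ∈ V, φ v ∈ V}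

theorem exists_words (w : FreeGroup ℕ) : ∃ n : ℕ, ∀ m, n ≤ m → w ∈ NFI.Words m := by
  induction w using FreeGroup.induction_on with
  | C1 => exact ⟨0, fun m _ => one_mem _⟩
  | of x => exact ⟨x + 1, fun m hm => Subgroup.subset_closure ⟨x, by
      show x < m
      omega, rfl⟩⟩
  | inv_of x ih =>
    obtain ⟨n, hn⟩ := ih
    exact ⟨n, fun m hm => inv_mem (hn m hm)⟩
  | mul u v ihu ihv =>
    obtain ⟨n, hn⟩ := ihu
    obtain ⟨m, hm⟩ := ihv
    exact ⟨max n m, fun k hk => mul_mem (hn k (le_trans (le_max_left _ _) hk))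
      (hm k (le_trans (le_max_right _ _) hk))⟩

theorem exists_words_finset (W : Finset (FreeGroup ℕ)) : ∃ n : ℕ, ∀ w ∈ W, w ∈ NFI.Words n := by
  classical
  choose t ht using exists_words
  exact ⟨W.sup t, fun w hw => ht w _ (Finset.le_sup hw)⟩

theorem idRel_invariant (G : Type) [Group G] (φ : FreeGroup ℕ →* FreeGroup ℕ) (v : FreeGroup ℕ)
    (hv : v ∈ IdRel G) : φ v ∈ IdRel G := by
  intro g
  have h1 : (FreeGroup.lift g).comp φ =
      FreeGroup.lift (fun i => FreeGroup.lift g (φ (FreeGroup.of i))) := by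
    ext1 i
    simp
  have h2 := hv (fun i => FreeGroup.lift g (φ (FreeGroup.of i)))
  rw [← h1] at h2
  exact h2

/-- The answer to Q1 is no. -/
theorem result :
    (¬ ∀ (G : Type) [Group G], AbelianByFinite G → FinitelyBased G) ∧
    ∃ (K : Type) (_ : Group K), Nat.card K = 1277952 ∧
      AbelianByFinite (Multiplicative ℤ ≀ᵣ K) ∧
      Group.FG (Multiplicative ℤ ≀ᵣ K) ∧
      ¬ FinitelyBased (Multiplicative ℤ ≀ᵣ K) ∧
      (∀ W : Finset (FreeGroup ℕ),
        fullyInvariantClosure (W : Set (FreeGroup ℕ)) ≠ IdRel (Multiplicative ℤ ≀ᵣ K)) ∧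
      ∀ n : ℕ, ∃ (H : Type) (_ : Group H), Finite H ∧
        (∀ w ∈ IdRel (Multiplicative ℤ ≀ᵣ K),
          w ∈ Subgroup.closure (FreeGroup.of '' {i : ℕ | i < n}) → w ∈ IdRel H) ∧
        ¬ IdRel (Multiplicative ℤ ≀ᵣ K) ≤ IdRel H := by
  haveI : Finite NFI.KK := inferInstance
  have hab : AbelianByFinite (Multiplicative ℤ ≀ᵣ NFI.KK) := NFI.base_wreath NFI.KK
  have hn : ∀ n : ℕ, ∃ (H : Type) (_ : Group H), Finite H ∧
        (∀ w ∈ IdRel (Multiplicative ℤ ≀ᵣ NFI.KK),
          w ∈ Subgroup.closure (FreeGroup.of '' {i : ℕ | i < n}) → w ∈ IdRel H) ∧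
        ¬ IdRel (Multiplicative ℤ ≀ᵣ NFI.KK) ≤ IdRel H := by
    intro n
    obtain ⟨H, hH, hfin, h1, w, hw1, hw2⟩ := NFI.key n
    exact ⟨H, hH, hfin, fun v hv hvn => h1 v hvn hv, fun hle => hw2 (hle hw1)⟩
  have hfb : ¬ FinitelyBased (Multiplicative ℤ ≀ᵣ NFI.KK) := by
    rintro ⟨W, hW⟩
    obtain ⟨n, hWn⟩ := exists_words_finset W
    obtain ⟨H, _, _, h1, h2⟩ := hn n
    have hG := (hW (Multiplicative ℤ ≀ᵣ NFI.KK)).1 le_rfl
    exact h2 ((hW H).2 fun w hw => h1 w (hG w hw) (hWn w hw))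
  refine ⟨fun hall => hfb (hall _ hab), NFI.KK, inferInstance, NFI.card_kk, hab,
    NFI.fg_wreath NFI.KK, hfb, ?_, hn⟩
  intro W hW
  obtain ⟨n, hWn⟩ := exists_words_finset W
  obtain ⟨H, _, _, h1, h2⟩ := hn n
  have hG : ∀ w ∈ W, w ∈ IdRel (Multiplicative ℤ ≀ᵣ NFI.KK) := by
    intro w hw
    rw [← hW]
    exact Subgroup.mem_sInf.2 fun V hV => hV.1 hw
  apply h2
  rw [← hW]
  exact sInf_le ⟨fun w hw => h1 w (hG w hw) (hWn w hw), idRel_invariant H⟩

end Pool.Agent.Results.MP_838612_al.WreathCounterexample
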